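import Mathlib

/-!
# A time change which is almost flat off the multiples of `1/q`
-/

open Filter Topology Set unitInterval

noncomputable section

namespace Pool.Agent.Helper1.RJ

/-- width of the exceptional neighbourhoods -/
def del (k : ℕ) : ℝ := 1 / (k + 2)

theorem del_pos (k : ℕ) : 0 < del k := by unfold del; positivity

theorem del_le (k : ℕ) : del k ≤ 1 / 2 := by
  unfold del
  rw [div_le_div_iff₀ (by positivity) (by norm_num)]
  have : (0 : ℝ) ≤ k := Nat.cast_nonneg k
  linarith

/-- projection of the line on the unit interval -/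
def pr (x : ℝ) : I := projIcc 0 1 zero_le_one x

theorem pr_mono : Monotone pr := monotone_projIcc zero_le_one

theorem pr_coe (t : I) : pr (t : ℝ) = t := projIcc_val zero_le_one t

theorem pr_val {x : ℝ} (h0 : 0 ≤ x) (h1 : x ≤ 1) : ((pr x : I) : ℝ) = x := by
  unfold pr
  rw [projIcc_of_mem zero_le_one ⟨h0, h1⟩]

/-- left end of the `j`-th interval -/
def lft (k q j : ℕ) : I := pr ((j + del k) / q)

/-- right end of the `j`-th interval -/
def rgt (k q j : ℕ) : I := pr ((j + 1 - del k) / q)

/-- local profile -/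
def psi (δ x : ℝ) : ℝ := min (x / (2 * δ)) (1 / 2) + max 0 ((x - (1 - δ)) / (2 * δ))

theorem psi_mono {δ : ℝ} (hδ : 0 < δ) : Monotone (psi δ) := by
  intro x y h
  unfold psi
  have h1 : x / (2 * δ) ≤ y / (2 * δ) := by gcongr
  have h2 : (x - (1 - δ)) / (2 * δ) ≤ (y - (1 - δ)) / (2 * δ) := by gcongr
  exact add_le_add (min_le_min_right _ h1) (max_le_max_left _ h2)

theorem psi_zero {δ : ℝ} (hδ : 0 < δ) (hδ1 : δ ≤ 1 / 2) : psi δ 0 = 0 := by
  unfold psi
  have h1 : (0 - (1 - δ)) / (2 * δ) ≤ 0 := div_nonpos_of_nonpos_of_nonneg (by linarith) (by linarith)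
  rw [max_eq_left h1]
  simp

theorem psi_one {δ : ℝ} (hδ : 0 < δ) (hδ1 : δ ≤ 1 / 2) : psi δ 1 = 1 := by
  unfold psi
  have h1 : (1 - (1 - δ)) / (2 * δ) = 1 / 2 := by field_simp; ring
  have h2 : (1 : ℝ) / 2 ≤ 1 / (2 * δ) := by
    rw [div_le_div_iff₀ (by norm_num) (by linarith)]; linarith
  rw [h1, min_eq_right h2, max_eq_right (by norm_num)]
  norm_num

theorem psi_mid {δ : ℝ} (hδ : 0 < δ) {x : ℝ} (h1 : δ ≤ x) (h2 : x ≤ 1 - δ) : psi δ x = 1 / 2 := by
  unfold psi
  have h3 : (x - (1 - δ)) / (2 * δ) ≤ 0 := div_nonpos_of_nonpos_of_nonneg (by linarith) (by linarith)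
  have h4 : (1 : ℝ) / 2 ≤ x / (2 * δ) := by
    rw [div_le_div_iff₀ (by norm_num) (by linarith)]; linarith
  rw [max_eq_left h3, min_eq_right h4]
  norm_num

/-- staircase -/
def stair (δ y : ℝ) : ℝ := y + (psi δ (Int.fract y) - Int.fract y)

theorem stair_eq (δ y : ℝ) : stair δ y = ⌊y⌋ + psi δ (Int.fract y) := by
  unfold stair
  have := Int.floor_add_fract y
  linarith

theorem stair_continuous {δ : ℝ} (hδ : 0 < δ) (hδ1 : δ ≤ 1 / 2) : Continuous (stair δ) := by
  unfold stair
  refine continuous_id.add ?_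
  have h1 : ContinuousOn (fun x : ℝ => psi δ x - x) (Icc 0 1) := by
    refine Continuous.continuousOn ?_
    unfold psi
    fun_prop
  exact ContinuousOn.comp_fract'' h1 (by simp only [psi_zero hδ hδ1, psi_one hδ hδ1]; norm_num)

theorem psi_mem {δ : ℝ} (hδ : 0 < δ) (hδ1 : δ ≤ 1 / 2) {x : ℝ} (h0 : 0 ≤ x) (h1 : x ≤ 1) :
    0 ≤ psi δ x ∧ psi δ x ≤ 1 := by
  constructor
  · rw [← psi_zero hδ hδ1]; exact psi_mono hδ h0
  · rw [← psi_one hδ hδ1]; exact psi_mono hδ h1

theorem stair_mono {δ : ℝ} (hδ : 0 < δ) (hδ1 : δ ≤ 1 / 2) : Monotone (stair δ) := by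
  intro x y hxy
  rw [stair_eq, stair_eq]
  have hfx := psi_mem hδ hδ1 (Int.fract_nonneg x) (Int.fract_lt_one x).le
  have hfy := psi_mem hδ hδ1 (Int.fract_nonneg y) (Int.fract_lt_one y).le
  rcases (Int.floor_mono hxy).eq_or_lt with h | h
  · rw [h]
    have h1 : Int.fract x ≤ Int.fract y := by
      unfold Int.fract
      rw [h]; linarith
    have := psi_mono hδ h1
    linarith
  · have h1 : (⌊x⌋ : ℝ) + 1 ≤ ⌊y⌋ := by exact_mod_cast h
    linarith

theorem stair_close {δ : ℝ} (hδ : 0 < δ) (hδ1 : δ ≤ 1 / 2) (y : ℝ) : |stair δ y - y| ≤ 1 := by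
  unfold stair
  have h1 := psi_mem hδ hδ1 (Int.fract_nonneg y) (Int.fract_lt_one y).le
  have h2 := Int.fract_nonneg y
  have h3 := (Int.fract_lt_one y).le
  rw [abs_le]
  constructor <;> linarith

theorem stair_mid {δ : ℝ} (hδ : 0 < δ) {j : ℕ} {y : ℝ} (h1 : j + δ ≤ y) (h2 : y ≤ j + 1 - δ) :
    stair δ y = j + 1 / 2 := by
  have hfl : ⌊y⌋ = (j : ℤ) := by
    rw [Int.floor_eq_iff]
    constructor
    · push_cast; linarith
    · push_cast; linarith
  have hfr : Int.fract y = y - j := by
    unfold Int.fract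
    rw [hfl]; push_cast; ring
  rw [stair_eq, hfl, hfr, psi_mid hδ (by linarith) (by linarith)]
  push_cast; ring

/-- The space of monotone continuous functions with nonnegative values. -/
def MS : Set C(I, ℝ) := {V | Monotone V ∧ 0 ≤ V 0}

theorem isClosed_MS : IsClosed MS := by
  have h1 : MS = (⋂ (s : I) (t : I) (_ : s ≤ t), {V : C(I, ℝ) | V s ≤ V t}) ∩ {V | 0 ≤ V 0} := by
    ext V
    simp only [MS, Set.mem_ofPred_eq, mem_inter_iff, mem_iInter, Monotone]
  rw [h1]
  refine IsClosed.inter ?_ ?_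
  · refine isClosed_iInter fun s => isClosed_iInter fun t => isClosed_iInter fun _ => ?_
    exact isClosed_le (continuous_eval_const s) (continuous_eval_const t)
  · exact isClosed_le continuous_const (continuous_eval_const 0)

/-- the time changes with the required properties, by Baire category -/
theorem exists_V (ρ : ℕ → ℕ → ℝ) (hρ : ∀ k q, 0 < ρ k q) :
    ∃ V : C(I, ℝ), StrictMono V ∧ (∀ t, 0 ≤ V t) ∧
      ∀ k, ∃ q : ℕ, k ≤ q ∧ 1 ≤ q ∧ ∀ j < q, V (rgt k q j) - V (lft k q j) < ρ k q := by
  classical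
  have : CompleteSpace MS := isClosed_MS.completeSpace_coe
  have : Nonempty MS := ⟨⟨0, fun _ _ _ => le_rfl, le_rfl⟩⟩
  let ι := (ℚ × ℚ) ⊕ ℕ
  let O : ι → Set MS := fun i => match i with
    | Sum.inl rs => {V | (0 : ℝ) ≤ rs.1 → rs.1 < rs.2 → (rs.2 : ℝ) ≤ 1 → V.1 (pr rs.1) < V.1 (pr rs.2)}
    | Sum.inr k => {V | ∃ q : ℕ, k ≤ q ∧ 1 ≤ q ∧ ∀ j < q,
        V.1 (rgt k q j) - V.1 (lft k q j) < ρ k q}
  have hev : ∀ t : I, Continuous fun V : MS => V.1 t := fun t =>
    (continuous_eval_const t).comp continuous_subtype_val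
  have hopen : ∀ i, IsOpen (O i) := by
    rintro (⟨r, s⟩ | k)
    · by_cases h : (0 : ℝ) ≤ r ∧ r < s ∧ (s : ℝ) ≤ 1
      · have : O (Sum.inl (r, s)) = {V : MS | V.1 (pr r) < V.1 (pr s)} := by
          ext V
          simp only [O, Set.mem_ofPred_eq]
          exact ⟨fun h' => h' h.1 h.2.1 h.2.2, fun h' _ _ _ => h'⟩
        rw [this]
        exact isOpen_lt (hev _) (hev _)
      · have : O (Sum.inl (r, s)) = univ := by
          ext V
          simp only [O, Set.mem_ofPred_eq, mem_univ, iff_true]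
          intro h1 h2 h3
          exact absurd ⟨h1, h2, h3⟩ h
        rw [this]
        exact isOpen_univ
    · have : O (Sum.inr k) = ⋃ (q : ℕ) (_ : k ≤ q) (_ : 1 ≤ q),
          ⋂ j ∈ Finset.range q, {V : MS | V.1 (rgt k q j) - V.1 (lft k q j) < ρ k q} := by
        ext V
        simp only [O, Set.mem_ofPred_eq, mem_iUnion, mem_iInter, Finset.mem_range, exists_prop]
      rw [this]
      refine isOpen_iUnion fun q => isOpen_iUnion fun _ => isOpen_iUnion fun _ => ?_
      refine isOpen_biInter_finset fun j _ => ?_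
      exact isOpen_lt ((hev _).sub (hev _)) continuous_const
  have hdense : ∀ i, Dense (O i) := by
    rintro (⟨r, s⟩ | k)
    · rw [Metric.dense_iff]
      intro V ε hε
      let V' : C(I, ℝ) := V.1 + ⟨fun t => ε / 2 * t, by fun_prop⟩
      have hV'm : V' ∈ MS := by
        constructor
        · intro x y hxy
          have h1 := V.2.1 hxy
          have h2 : ε / 2 * (x : ℝ) ≤ ε / 2 * (y : ℝ) := by
            have : (x : ℝ) ≤ y := hxy
            gcongr
          exact add_le_add h1 h2
        · have h1 := V.2.2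
          show 0 ≤ V.1 0 + ε / 2 * ((0 : I) : ℝ)
          simpa using h1
      refine ⟨⟨V', hV'm⟩, ?_, ?_⟩
      · rw [Metric.mem_ball, Subtype.dist_eq, ContinuousMap.dist_lt_iff hε]
        intro t
        show dist (V.1 t + ε / 2 * (t : ℝ)) (V.1 t) < ε
        rw [Real.dist_eq, add_sub_cancel_left, abs_of_nonneg (by have := t.2.1; positivity)]
        have := t.2.2
        nlinarith
      · intro h1 h2 h3
        have h2' : (r : ℝ) < s := by exact_mod_cast h2
        have h4 : pr (r : ℝ) ≤ pr (s : ℝ) := pr_mono h2'.le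
        have h5 := V.2.1 h4
        show V.1 (pr r) + ε / 2 * ((pr (r : ℝ) : I) : ℝ) < V.1 (pr s) + ε / 2 * ((pr (s : ℝ) : I) : ℝ)
        simp only at h1 h3
        rw [pr_val h1 (h2'.le.trans h3), pr_val (h1.trans h2'.le) h3]
        have : ε / 2 * (r : ℝ) < ε / 2 * (s : ℝ) := by gcongr
        linarith
    · rw [Metric.dense_iff]
      intro V ε hε
      -- uniform continuity
      have huc : UniformContinuous V.1 := CompactSpace.uniformContinuous_of_continuous V.1.continuous
      obtain ⟨δ', hδ', hδ'u⟩ := Metric.uniformContinuous_iff.1 huc ε hε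
      obtain ⟨q₀, hq₀⟩ := exists_nat_gt (1 / δ')
      set q : ℕ := max (max k 1) q₀ with hq
      have hqk : k ≤ q := (le_max_left _ _).trans (le_max_left _ _)
      have hq1 : 1 ≤ q := (le_max_right _ _).trans (le_max_left _ _)
      have hqq : (1 : ℝ) / q < δ' := by
        have h1 : (1 : ℝ) / δ' < q := hq₀.trans_le (by exact_mod_cast le_max_right _ _)
        have h2 : (0 : ℝ) < q := by exact_mod_cast hq1
        rw [div_lt_iff₀ h2]
        rw [div_lt_iff₀ hδ'] at h1
        linarith
      have hq0 : (0 : ℝ) < q := by exact_mod_cast hq1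
      have hd0 := del_pos k
      have hd1 := del_le k
      let th : C(I, I) := ⟨fun t => pr (stair (del k) (q * t) / q), by
        refine (continuous_projIcc).comp ?_
        exact ((stair_continuous hd0 hd1).comp (by fun_prop)).div_const _⟩
      have hthm : Monotone th := by
        intro x y hxy
        have hxy' : (x : ℝ) ≤ y := hxy
        refine pr_mono ?_
        have : stair (del k) (q * x) ≤ stair (del k) (q * y) :=
          stair_mono hd0 hd1 (by gcongr)
        gcongr
      have hthc : ∀ t : I, dist (th t) t < δ' := by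
        intro t
        have h1 : |stair (del k) (q * t) / q - t| ≤ 1 / q := by
          have h2 := stair_close hd0 hd1 (q * t)
          have h3 : stair (del k) (q * t) / q - t = (stair (del k) (q * t) - q * t) / q := by
            field_simp
          rw [h3, abs_div, abs_of_pos hq0]
          gcongr
        have h4 : dist (th t) t ≤ |stair (del k) (q * t) / q - t| := by
          have h5 : dist (pr (stair (del k) (q * t) / q)) (pr (t : ℝ)) ≤
              dist (stair (del k) (q * t) / q) (t : ℝ) := by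
            have h6 := (LipschitzWith.projIcc (zero_le_one' ℝ)).dist_le_mul
              (stair (del k) (q * t) / q) (t : ℝ)
            rw [NNReal.coe_one, one_mul] at h6
            exact h6
          rw [pr_coe] at h5
          exact h5
        exact (h4.trans h1).trans_lt hqq
      let V' : C(I, ℝ) := V.1.comp th
      have hV'm : V' ∈ MS := by
        refine ⟨fun x y hxy => V.2.1 (hthm hxy), ?_⟩
        show 0 ≤ V.1 (th 0)
        exact V.2.2.trans (V.2.1 unitInterval.nonneg')
      refine ⟨⟨V', hV'm⟩, ?_, ⟨q, hqk, hq1, fun j hj => ?_⟩⟩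
      · rw [Metric.mem_ball, Subtype.dist_eq, ContinuousMap.dist_lt_iff hε]
        intro t
        exact hδ'u (hthc t)
      · have hjq : (j : ℝ) + 1 ≤ q := by exact_mod_cast hj
        have hj0 : (0 : ℝ) ≤ j := Nat.cast_nonneg j
        have hl : ((lft k q j : I) : ℝ) = (j + del k) / q := by
          refine pr_val (by positivity) ?_
          rw [div_le_one hq0]; linarith
        have hr : ((rgt k q j : I) : ℝ) = (j + 1 - del k) / q := by
          refine pr_val (div_nonneg (by linarith) hq0.le) ?_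
          rw [div_le_one hq0]; linarith
        have e1 : th (rgt k q j) = th (lft k q j) := by
          show pr (stair (del k) (q * (rgt k q j : I)) / q) = pr (stair (del k) (q * (lft k q j : I)) / q)
          rw [hl, hr, mul_div_cancel₀ _ hq0.ne', mul_div_cancel₀ _ hq0.ne',
            stair_mid hd0 (j := j) (by linarith) le_rfl, stair_mid hd0 (j := j) le_rfl (by linarith)]
        show V.1 (th (rgt k q j)) - V.1 (th (lft k q j)) < ρ k q
        rw [e1, sub_self]
        exact hρ k q
  obtain ⟨V, hV⟩ := (dense_iInter_of_isOpen hopen hdense).nonempty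
  rw [mem_iInter] at hV
  refine ⟨V.1, ?_, fun t => V.2.2.trans (V.2.1 unitInterval.nonneg'), fun k => hV (Sum.inr k)⟩
  intro x y hxy
  have hxy' : (x : ℝ) < y := hxy
  obtain ⟨r, hr1, hr2⟩ := exists_rat_btwn hxy'
  obtain ⟨s, hs1, hs2⟩ := exists_rat_btwn hr2
  have h1 : V.1 (pr r) < V.1 (pr s) :=
    hV (Sum.inl (r, s)) (x.2.1.trans hr1.le) (by exact_mod_cast hs1) (hs2.le.trans y.2.2)
  have h2 : V.1 x ≤ V.1 (pr r) := by
    refine V.2.1 ?_
    rw [← pr_coe x]
    exact pr_mono hr1.le
  have h3 : V.1 (pr s) ≤ V.1 y := by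
    refine V.2.1 ?_
    rw [← pr_coe y]
    exact pr_mono hs2.le
  exact h2.trans_lt (h1.trans_le h3)

end Pool.Agent.Helper1.RJ
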