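import Pool.Agent.Helper1.RJ.Prob

/-!
# A time change of Brownian motion whose graph supports no Rajchman measure
-/

open MeasureTheory Filter Topology Set unitInterval ProbabilityTheory
open scoped Real NNReal ENNReal

noncomputable section

namespace Pool.Agent.Helper1.RJ

/-- the allowed increments of the time change -/
def rho (k q : ℕ) : ℝ := eta k q ^ 2 * (1 / 2) ^ k / (1000 * (q + 1))

theorem rho_pos (k q : ℕ) : 0 < rho k q := by
  unfold rho
  have := eta_pos k q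
  positivity

theorem exists_timeChange : ∃ V : I → ℝ≥0, Continuous V ∧ StrictMono V ∧
    ∀ {Ω : Type*} [MeasurableSpace Ω] (P : Measure Ω) (B : ℝ≥0 → Ω → ℝ),
      IsBrownianReal B P → ∀ᵐ ω ∂P, ¬ ∃ μ : Measure (ℝ × ℝ), IsRajchman μ ∧
        μ.support ⊆ {x | ∃ t : I, x = ((t : ℝ), B (V t) ω)} := by
  obtain ⟨V, hV1, hV0, hV2⟩ := exists_V rho rho_pos
  choose Q hQ1 hQ2 hQ3 using hV2
  refine ⟨fun t => ⟨V t, hV0 t⟩, ?_, ?_, ?_⟩
  · exact Continuous.subtype_mk V.continuous _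
  · intro s t hst
    exact Subtype.mk_lt_mk.2 (hV1 hst)
  intro Ω _ P B hB
  set W : I → ℝ≥0 := fun t => ⟨V t, hV0 t⟩ with hW
  -- bad events
  set A : ℕ → Set Ω := fun k => ⋃ j ∈ Finset.range (Q k),
    {ω | ∃ s : ℝ≥0, W (lft k (Q k) j) ≤ s ∧ (s : ℝ) ≤ W (lft k (Q k) j) + rho k (Q k) ∧
      eta k (Q k) < |B s ω - B (W (lft k (Q k) j)) ω|} with hA
  have hPA : ∀ k, P (A k) ≤ ENNReal.ofReal ((1 / 2) ^ k) := by
    intro k
    refine (measure_biUnion_finset_le _ _).trans ?_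
    refine (Finset.sum_le_sum fun j _ =>
      osc_bound hB (W (lft k (Q k) j)) (rho_pos k (Q k)) (eta_pos k (Q k))).trans ?_
    rw [Finset.sum_const, Finset.card_range, nsmul_eq_mul]
    rw [show ((Q k : ℕ) : ℝ≥0∞) = ENNReal.ofReal (Q k : ℝ) by simp]
    rw [← ENNReal.ofReal_mul (by positivity)]
    refine ENNReal.ofReal_le_ofReal ?_
    have h1 := eta_pos k (Q k)
    unfold rho
    have e1 : (Q k : ℝ) * (458752 * (eta k (Q k) ^ 2 * (1 / 2) ^ k / (1000 * ((Q k : ℝ) + 1))) ^ 2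
        / eta k (Q k) ^ 4) =
        (458752 / 1000000) * ((Q k : ℝ) / ((Q k : ℝ) + 1) ^ 2) * ((1 / 2) ^ k) ^ 2 := by
      field_simp
      ring
    rw [e1]
    have h2 : (Q k : ℝ) / ((Q k : ℝ) + 1) ^ 2 ≤ 1 := by
      rw [div_le_one (by positivity)]
      nlinarith [(Nat.cast_nonneg (Q k) : (0 : ℝ) ≤ Q k)]
    have h3 : ((1 / 2 : ℝ) ^ k) ^ 2 ≤ (1 / 2) ^ k := by
      have h4 : (0 : ℝ) < (1 / 2) ^ k := by positivity
      have h5 : (1 / 2 : ℝ) ^ k ≤ 1 := pow_le_one₀ (by norm_num) (by norm_num)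
      nlinarith
    have h6 : (0 : ℝ) ≤ (Q k : ℝ) / ((Q k : ℝ) + 1) ^ 2 := by positivity
    calc _ ≤ 1 * 1 * (1 / 2 : ℝ) ^ k := by
          refine mul_le_mul (mul_le_mul (by norm_num) h2 h6 (by norm_num)) h3 (by positivity)
            (by norm_num)
      _ = _ := by ring
  have hsum : ∑' k, P (A k) ≠ ∞ := by
    refine ne_top_of_le_ne_top ?_ (ENNReal.tsum_le_tsum hPA)
    rw [← ENNReal.ofReal_tsum_of_nonneg (fun n => by positivity)
      (summable_geometric_of_lt_one (by norm_num) (by norm_num))]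
    exact ENNReal.ofReal_ne_top
  have hev := ae_eventually_notMem hsum
  filter_upwards [hev] with ω hω
  rintro ⟨μ, hμ, hsupp⟩
  refine no_rajchman (fun t => B (W t) ω) ?_ μ hμ hsupp
  refine Eventually.frequently ?_
  filter_upwards [hω] with k hk
  refine ⟨Q k, hQ1 k, hQ2 k, fun j hj t ht1 ht2 => ?_⟩
  simp only [hA, Set.mem_iUnion, not_exists, Finset.mem_range, Set.mem_ofPred_eq, not_and,
    not_lt] at hk
  refine hk j hj (W t) ?_ ?_
  · exact Subtype.mk_le_mk.2 (hV1.monotone ht1)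
  · have h1 : V t ≤ V (rgt k (Q k) j) := hV1.monotone ht2
    have h2 := hQ3 k j hj
    change V t ≤ V (lft k (Q k) j) + rho k (Q k)
    linarith

end Pool.Agent.Helper1.RJ
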