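import Pool.Agent.Helper1.RJ.Baire

/-!
# The key deterministic lemma
-/

open MeasureTheory Filter Topology Set unitInterval
open scoped Real

noncomputable section

namespace Pool.Agent.Helper1.RJ

/-- Fourier transform of a measure on the plane -/
def ft (μ : Measure (ℝ × ℝ)) (ξ : ℝ × ℝ) : ℂ :=
  ∫ x, Complex.exp (-2 * π * Complex.I * ((ξ.1 * x.1 + ξ.2 * x.2 : ℝ) : ℂ)) ∂μ

/-- Rajchman measures -/
structure IsRajchman (μ : Measure (ℝ × ℝ)) : Prop where
  ne_zero : μ ≠ 0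
  finite : IsFiniteMeasure μ
  tendsto : Tendsto (ft μ) (cocompact (ℝ × ℝ)) (𝓝 0)

/-- simultaneous Dirichlet approximation -/
theorem dirichlet_simul {m : ℕ} (x : Fin m → ℝ) {Q : ℕ} (hQ : 1 ≤ Q) :
    ∃ p : ℕ, 1 ≤ p ∧ p ≤ Q ^ m ∧ ∀ j, ∃ z : ℤ, |p * x j - z| ≤ 1 / Q := by
  have hQ0 : (0 : ℝ) < Q := by exact_mod_cast hQ
  have hlt : ∀ y : ℝ, (⌊Q * Int.fract y⌋).toNat < Q := by
    intro y
    have h1 : Q * Int.fract y < Q := by
      have := Int.fract_lt_one y
      nlinarith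
    have h0 : 0 ≤ Q * Int.fract y := mul_nonneg hQ0.le (Int.fract_nonneg y)
    have h2 : ⌊Q * Int.fract y⌋ < (Q : ℤ) := Int.floor_lt.2 (by exact_mod_cast h1)
    have h3 : 0 ≤ ⌊Q * Int.fract y⌋ := Int.floor_nonneg.2 h0
    omega
  let F : ℕ → (Fin m → Fin Q) := fun p j => ⟨(⌊Q * Int.fract (p * x j)⌋).toNat, hlt _⟩
  have hcard : (Finset.univ : Finset (Fin m → Fin Q)).card < (Finset.range (Q ^ m + 1)).card := by
    simp
  obtain ⟨a, ha, b, hb, hab, hF⟩ := Finset.exists_ne_map_eq_of_card_lt_of_maps_to hcard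
    (f := F) (fun _ _ => Finset.mem_univ _)
  wlog hlt' : a < b generalizing a b
  · exact this b hb a ha hab.symm hF.symm (lt_of_le_of_ne (not_lt.1 hlt') hab.symm)
  refine ⟨b - a, by omega, ?_, fun j => ?_⟩
  · rw [Finset.mem_range] at hb
    omega
  · have h1 : (F a j : ℕ) = F b j := by rw [hF]
    have h2 : ⌊Q * Int.fract (a * x j)⌋ = ⌊Q * Int.fract (b * x j)⌋ := by
      have h3 : 0 ≤ ⌊Q * Int.fract (a * x j)⌋ :=
        Int.floor_nonneg.2 (mul_nonneg hQ0.le (Int.fract_nonneg _))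
      have h4 : 0 ≤ ⌊Q * Int.fract (b * x j)⌋ :=
        Int.floor_nonneg.2 (mul_nonneg hQ0.le (Int.fract_nonneg _))
      simp only [F] at h1
      omega
    have h5 := Int.abs_sub_lt_one_of_floor_eq_floor h2
    refine ⟨⌊b * x j⌋ - ⌊a * x j⌋, ?_⟩
    have h6 : ((b - a : ℕ) : ℝ) * x j - ((⌊b * x j⌋ - ⌊a * x j⌋ : ℤ) : ℝ)
        = Int.fract (b * x j) - Int.fract (a * x j) := by
      unfold Int.fract
      rw [Nat.cast_sub hlt'.le]
      push_cast
      ring
    rw [h6, le_div_iff₀ hQ0, abs_sub_comm]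
    have h7 : |Int.fract (a * x j) - Int.fract (b * x j)| * Q
        = |Q * Int.fract (a * x j) - Q * Int.fract (b * x j)| := by
      rw [← mul_sub, abs_mul, Nat.abs_cast, mul_comm]
    rw [h7]
    exact h5.le

/-- an exponential close to one -/
theorem exp_close {y : ℝ} {z : ℤ} {c : ℝ} (h : |y - z| ≤ c) :
    ‖1 - Complex.exp (-2 * π * Complex.I * (y : ℂ))‖ ≤ 2 * π * c := by
  have h1 : Complex.exp (-2 * π * Complex.I * (y : ℂ)) =
      Complex.exp (((-(2 * π * (y - z)) : ℝ) : ℂ) * Complex.I) := by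
    have h2 : -2 * π * Complex.I * (y : ℂ) = ((-(2 * π * (y - z)) : ℝ) : ℂ) * Complex.I
        + ((-z : ℤ) : ℂ) * (2 * π * Complex.I) := by
      push_cast
      ring
    rw [h2, Complex.exp_add, Complex.exp_int_mul_two_pi_mul_I, mul_one]
  rw [h1, norm_sub_rev]
  have h3 := Real.norm_exp_I_mul_ofReal_sub_one_le (x := -(2 * π * (y - z)))
  rw [mul_comm Complex.I] at h3
  refine h3.trans ?_
  rw [Real.norm_eq_abs, abs_neg, abs_mul, abs_of_pos (by positivity : (0 : ℝ) < 2 * π)]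
  gcongr

/-- allowed oscillation -/
def eta (k q : ℕ) : ℝ := del k / ((k + 1 : ℕ) * ((k + 2 : ℕ) : ℝ) ^ q)

theorem eta_pos (k q : ℕ) : 0 < eta k q := by
  unfold eta
  have := del_pos k
  positivity

/-- The graph of `b` supports no Rajchman measure if `b` is nearly constant on the intervals
off the multiples of `1/q`, for suitable arbitrarily large `q`. -/
theorem no_rajchman (b : I → ℝ)
    (hb : ∃ᶠ k : ℕ in atTop, ∃ q : ℕ, k ≤ q ∧ 1 ≤ q ∧ ∀ j < q, ∀ t : I,
      lft k q j ≤ t → t ≤ rgt k q j → |b t - b (lft k q j)| ≤ eta k q)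
    (μ : Measure (ℝ × ℝ)) (hμ : IsRajchman μ)
    (hsupp : μ.support ⊆ {x | ∃ t : I, x = ((t : ℝ), b t)}) : False := by
  have := hμ.finite
  have hmass : 0 < μ.real univ := by
    rw [Measure.real, ENNReal.toReal_pos_iff]
    refine ⟨?_, measure_lt_top _ _⟩
    rw [pos_iff_ne_zero]
    exact fun h => hμ.ne_zero (Measure.measure_univ_eq_zero.1 h)
  set ε : ℝ := μ.real univ / 8 with hε
  have hεp : 0 < ε := by positivity
  -- decay
  have hdec : ∃ R : ℝ, ∀ ξ : ℝ × ℝ, R ≤ ‖ξ‖ → ‖ft μ ξ‖ < ε := by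
    have h1 := hμ.tendsto.eventually (Metric.ball_mem_nhds 0 hεp)
    rw [← Metric.cobounded_eq_cocompact, ← comap_norm_atTop] at h1
    obtain ⟨s, hs, hs'⟩ := Filter.mem_comap.1 h1
    obtain ⟨R, hR⟩ := Filter.mem_atTop_sets.1 hs
    refine ⟨R, fun ξ hξ => ?_⟩
    have := hs' (hR _ hξ)
    simpa using this
  obtain ⟨R, hR⟩ := hdec
  -- choose a large k
  have hlim : ∀ᶠ k : ℕ in atTop, R ≤ k ∧ 1 ≤ k ∧ 8 * π * del k * μ.real univ ≤ ε := by
    have h1 : Tendsto (fun k : ℕ => 8 * π * del k * μ.real univ) atTop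
        (𝓝 (8 * π * 0 * μ.real univ)) := by
      refine Tendsto.mul_const _ (Tendsto.const_mul _ ?_)
      unfold del
      have h2 : Tendsto (fun k : ℕ => (k : ℝ) + 2) atTop atTop :=
        tendsto_atTop_add_const_right _ _ tendsto_natCast_atTop_atTop
      exact (tendsto_inv_atTop_zero.comp h2).congr fun k => by simp
    have h3 : (8 * π * 0 * μ.real univ) < ε := by simpa using hεp
    exact ((tendsto_natCast_atTop_atTop (R := ℝ)).eventually (eventually_ge_atTop R)).and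
      ((eventually_ge_atTop 1).and ((h1.eventually (eventually_lt_nhds h3)).mono fun _ => le_of_lt))
  obtain ⟨k, ⟨q, hkq, hq1, hosc⟩, hkR, hk1, hkε⟩ := (hb.and_eventually hlim).exists
  have hq0 : (0 : ℝ) < q := by exact_mod_cast hq1
  have hd0 := del_pos k
  have hd1 := del_le k
  -- simultaneous approximation
  obtain ⟨p', hp1, hp2, hp3⟩ := dirichlet_simul (m := q)
    (fun j => (k : ℝ) * b (lft k q j)) (Q := k + 2) (by omega)
  set p : ℕ := p' * k with hp
  have hpk : k ≤ p := Nat.le_mul_of_pos_left k hp1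
  have hdelQ : (1 : ℝ) / ((k + 2 : ℕ) : ℝ) = del k := by unfold del; push_cast; rfl
  -- pointwise bound
  have hpt : ∀ t : I, ‖(1 - Complex.exp (-2 * π * Complex.I * ((q * (t : ℝ) : ℝ) : ℂ))) *
      (1 - Complex.exp (-2 * π * Complex.I * ((p * b t : ℝ) : ℂ)))‖ ≤ 8 * π * del k := by
    intro t
    have hle2 : ∀ y : ℝ, ‖1 - Complex.exp (-2 * π * Complex.I * (y : ℂ))‖ ≤ 2 := by
      intro y
      have h1 : ‖Complex.exp (-2 * π * Complex.I * (y : ℂ))‖ = 1 := by
        have : -2 * π * Complex.I * (y : ℂ) = ((-2 * π * y : ℝ) : ℂ) * Complex.I := by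
          push_cast; ring
        rw [this, Complex.norm_exp_ofReal_mul_I]
      calc _ ≤ ‖(1 : ℂ)‖ + ‖Complex.exp (-2 * π * Complex.I * (y : ℂ))‖ := norm_sub_le _ _
        _ = 2 := by rw [h1, norm_one]; norm_num
    rw [norm_mul]
    by_cases hnear : ∃ z : ℤ, |q * (t : ℝ) - z| ≤ del k
    · obtain ⟨z, hz⟩ := hnear
      calc _ ≤ (2 * π * del k) * 2 := mul_le_mul (exp_close hz) (hle2 _) (norm_nonneg _)
            (by positivity)
        _ ≤ 8 * π * del k := by nlinarith [Real.pi_pos]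
    · push Not at hnear
      -- locate t
      have ht0 := t.2.1
      have ht1 := t.2.2
      set j : ℕ := ⌊(q : ℝ) * t⌋₊ with hj
      have hj1 : (j : ℝ) ≤ q * t := Nat.floor_le (by positivity)
      have hj2 : (q : ℝ) * t < j + 1 := Nat.lt_floor_add_one _
      have h1 := hnear j
      have h2 := hnear (j + 1)
      push_cast at h1 h2
      rw [abs_of_nonneg (by linarith)] at h1
      rw [abs_of_neg (by linarith)] at h2
      have hjq : j < q := by
        by_contra hcon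
        have h3 : (q : ℝ) ≤ j := by exact_mod_cast not_lt.1 hcon
        have h4 : (q : ℝ) * t ≤ q := by nlinarith
        linarith
      have hjq' : (j : ℝ) + 1 ≤ q := by exact_mod_cast hjq
      have hj0 : (0 : ℝ) ≤ j := Nat.cast_nonneg j
      have hlt : lft k q j ≤ t := by
        rw [← pr_coe t]
        refine pr_mono ?_
        rw [div_le_iff₀ hq0]; linarith
      have hrt : t ≤ rgt k q j := by
        rw [← pr_coe t]
        refine pr_mono ?_
        rw [le_div_iff₀ hq0]; linarith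
      have h3 := hosc j hjq t hlt hrt
      obtain ⟨z, hz⟩ := hp3 ⟨j, hjq⟩
      simp only at hz
      rw [hdelQ] at hz
      have h4 : |(p : ℝ) * b t - z| ≤ 2 * del k := by
        have h5 : (p : ℝ) * b t - z = p * (b t - b (lft k q j)) +
            (p' * (k * b (lft k q j)) - z) := by
          rw [hp]; push_cast; ring
        rw [h5]
        refine (abs_add_le _ _).trans ?_
        have h6 : |(p : ℝ) * (b t - b (lft k q j))| ≤ del k := by
          rw [abs_mul, Nat.abs_cast]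
          have h7 : (p : ℝ) ≤ (k + 1 : ℕ) * ((k + 2 : ℕ) : ℝ) ^ q := by
            have h8 : p ≤ (k + 1) * (k + 2) ^ q := by
              rw [hp, mul_comm]
              exact Nat.mul_le_mul (Nat.le_succ k) hp2
            exact_mod_cast h8
          calc (p : ℝ) * |b t - b (lft k q j)| ≤ ((k + 1 : ℕ) * ((k + 2 : ℕ) : ℝ) ^ q) * eta k q :=
                mul_le_mul h7 h3 (abs_nonneg _) (by positivity)
            _ = del k := by
                unfold eta
                field_simp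
        linarith
      calc _ ≤ 2 * (2 * π * (2 * del k)) := mul_le_mul (hle2 _) (exp_close h4) (norm_nonneg _)
            (by norm_num)
        _ = 8 * π * del k := by ring
  -- integrate
  set F : ℝ × ℝ → ℂ := fun x =>
    (1 - Complex.exp (-2 * π * Complex.I * (((q : ℝ) * x.1 : ℝ) : ℂ))) *
      (1 - Complex.exp (-2 * π * Complex.I * (((p : ℝ) * x.2 : ℝ) : ℂ))) with hF
  have hint : ∀ ξ : ℝ × ℝ, Integrable (fun x : ℝ × ℝ =>
      Complex.exp (-2 * π * Complex.I * ((ξ.1 * x.1 + ξ.2 * x.2 : ℝ) : ℂ))) μ := by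
    intro ξ
    refine Integrable.of_bound (C := 1) (by fun_prop) (Eventually.of_forall fun x => ?_)
    have : -2 * π * Complex.I * ((ξ.1 * x.1 + ξ.2 * x.2 : ℝ) : ℂ) =
        ((-2 * π * (ξ.1 * x.1 + ξ.2 * x.2) : ℝ) : ℂ) * Complex.I := by
      push_cast; ring
    rw [this, Complex.norm_exp_ofReal_mul_I]
  have hFe : ∀ x, F x = 1 - Complex.exp (-2 * π * Complex.I * (((q : ℝ) * x.1 + 0 * x.2 : ℝ) : ℂ))
      - Complex.exp (-2 * π * Complex.I * ((0 * x.1 + (p : ℝ) * x.2 : ℝ) : ℂ))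
      + Complex.exp (-2 * π * Complex.I * (((q : ℝ) * x.1 + (p : ℝ) * x.2 : ℝ) : ℂ)) := by
    intro x
    have e1 : Complex.exp (-2 * π * Complex.I * (((q : ℝ) * x.1 + (p : ℝ) * x.2 : ℝ) : ℂ)) =
        Complex.exp (-2 * π * Complex.I * (((q : ℝ) * x.1 : ℝ) : ℂ)) *
        Complex.exp (-2 * π * Complex.I * (((p : ℝ) * x.2 : ℝ) : ℂ)) := by
      rw [← Complex.exp_add]
      congr 1
      push_cast; ring
    simp only [hF]
    rw [e1, zero_mul, zero_mul, add_zero, zero_add]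
    ring
  have hFint : ∫ x, F x ∂μ = (μ.real univ : ℂ) - ft μ (q, 0) - ft μ (0, p) + ft μ (q, p) := by
    simp_rw [hFe]
    have i1 := hint (q, 0)
    have i2 := hint (0, p)
    have i3 := hint (q, p)
    simp only at i1 i2 i3
    have i4 : Integrable (fun x : ℝ × ℝ => (1 : ℂ) -
        Complex.exp (-2 * π * Complex.I * (((q : ℝ) * x.1 + 0 * x.2 : ℝ) : ℂ))) μ :=
      (integrable_const _).sub i1
    have i5 : Integrable (fun x : ℝ × ℝ => (1 : ℂ) -
        Complex.exp (-2 * π * Complex.I * (((q : ℝ) * x.1 + 0 * x.2 : ℝ) : ℂ)) -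
        Complex.exp (-2 * π * Complex.I * ((0 * x.1 + (p : ℝ) * x.2 : ℝ) : ℂ))) μ := i4.sub i2
    rw [integral_add i5 i3, integral_sub i4 i2, integral_sub (integrable_const _) i1]
    unfold ft
    simp
  have hFle : ‖∫ x, F x ∂μ‖ ≤ 8 * π * del k * μ.real univ := by
    refine norm_integral_le_of_norm_le_const ?_
    have h1 : ∀ᵐ x ∂μ, x ∈ μ.support := Measure.support_mem_ae
    filter_upwards [h1] with x hx
    obtain ⟨t, rfl⟩ := hsupp hx
    exact hpt t
  have hn1 : ‖ft μ (q, 0)‖ < ε := by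
    refine hR _ (hkR.trans ?_)
    calc (k : ℝ) ≤ q := by exact_mod_cast hkq
      _ = ‖(q : ℝ)‖ := by simp
      _ ≤ ‖((q : ℝ), (0 : ℝ))‖ := norm_fst_le (x := ((q : ℝ), (0 : ℝ)))
  have hn2 : ‖ft μ (0, p)‖ < ε := by
    refine hR _ (hkR.trans ?_)
    calc (k : ℝ) ≤ p := by exact_mod_cast hpk
      _ = ‖(p : ℝ)‖ := by simp
      _ ≤ ‖((0 : ℝ), (p : ℝ))‖ := norm_snd_le (x := ((0 : ℝ), (p : ℝ)))
  have hn3 : ‖ft μ (q, p)‖ < ε := by
    refine hR _ (hkR.trans ?_)
    calc (k : ℝ) ≤ q := by exact_mod_cast hkq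
      _ = ‖(q : ℝ)‖ := by simp
      _ ≤ ‖((q : ℝ), (p : ℝ))‖ := norm_fst_le (x := ((q : ℝ), (p : ℝ)))
  have hfin : μ.real univ ≤ 8 * π * del k * μ.real univ + ε + ε + ε := by
    have e1 : (μ.real univ : ℂ) = (∫ x, F x ∂μ) + ft μ (q, 0) + ft μ (0, p) - ft μ (q, p) := by
      rw [hFint]; ring
    have e2 : ‖(μ.real univ : ℂ)‖ = μ.real univ := by
      rw [Complex.norm_real, Real.norm_eq_abs, abs_of_pos hmass]
    rw [← e2, e1]
    refine (norm_sub_le _ _).trans ?_
    refine add_le_add ((norm_add_le _ _).trans ?_) hn3.le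
    refine add_le_add ((norm_add_le _ _).trans ?_) hn2.le
    refine add_le_add ?_ hn1.le
    rw [← e1, e2]
    exact hFle
  linarith

end Pool.Agent.Helper1.RJ
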