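import Pool.Agent.Helper1.RJ.Key

/-!
# Oscillation of Brownian motion on a short interval, by chaining
-/

open MeasureTheory Filter Topology Set unitInterval ProbabilityTheory
open scoped Real NNReal ENNReal

noncomputable section

namespace Pool.Agent.Helper1.RJ

variable {Ω : Type*} [mΩ : MeasurableSpace Ω] {P : Measure Ω}

/-- fourth power tail of a centred Gaussian -/
theorem gauss_tail {X : Ω → ℝ} {v : ℝ≥0} (hX : HasLaw X (gaussianReal 0 v) P) (hv : 0 < v)
    {x : ℝ} (hx : 0 < x) :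
    P {ω | x < |X ω|} ≤ ENNReal.ofReal (16 * (v : ℝ) ^ 2 / x ^ 4) := by
  have hprob : IsProbabilityMeasure P := hX.isProbabilityMeasure
  have hsub : HasSubgaussianMGF X v P := by
    refine ⟨fun t => ?_, fun t => ?_⟩
    · have h1 := integrable_exp_mul_gaussianReal (μ := 0) (v := v) t
      rw [← hX.map_eq] at h1
      exact (integrable_map_measure (by fun_prop) hX.aemeasurable).1 h1
    · rw [mgf_gaussianReal hX.map_eq]
      simp
  have hv0 : (0 : ℝ) < v := by exact_mod_cast hv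
  have hexp : Real.exp (-x ^ 2 / (2 * v)) ≤ 8 * (v : ℝ) ^ 2 / x ^ 4 := by
    have h1 : 0 ≤ x ^ 2 / (2 * v) := by positivity
    have h2 := Real.pow_div_factorial_le_exp (x ^ 2 / (2 * v)) h1 2
    have h3 : Real.exp (-x ^ 2 / (2 * v)) = (Real.exp (x ^ 2 / (2 * v)))⁻¹ := by
      rw [← Real.exp_neg]; congr 1; ring
    rw [h3]
    have h4 : 0 < (x ^ 2 / (2 * v)) ^ 2 / (2 : ℕ).factorial := by positivity
    calc _ ≤ ((x ^ 2 / (2 * v)) ^ 2 / (2 : ℕ).factorial)⁻¹ := inv_anti₀ h4 h2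
      _ = 8 * (v : ℝ) ^ 2 / x ^ 4 := by
          rw [Nat.factorial_two]
          push_cast
          field_simp
          ring
  have h1 := (hsub.measure_ge_le hx.le).trans hexp
  have h2 := (hsub.neg.measure_ge_le hx.le).trans hexp
  have hle : P {ω | x < |X ω|} ≤ P {ω | x ≤ X ω} + P {ω | x ≤ (-X) ω} := by
    refine (measure_mono ?_).trans (measure_union_le _ _)
    intro ω hω
    have hω' : x < |X ω| := hω
    rcases le_abs.1 hω'.le with h | h
    · exact Or.inl h
    · exact Or.inr h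
  refine hle.trans ?_
  have e1 : P {ω | x ≤ X ω} ≤ ENNReal.ofReal (8 * (v : ℝ) ^ 2 / x ^ 4) := by
    rw [← ENNReal.ofReal_toReal (measure_ne_top P {ω | x ≤ X ω})]
    exact ENNReal.ofReal_le_ofReal h1
  have e2 : P {ω | x ≤ (-X) ω} ≤ ENNReal.ofReal (8 * (v : ℝ) ^ 2 / x ^ 4) := by
    rw [← ENNReal.ofReal_toReal (measure_ne_top P {ω | x ≤ (-X) ω})]
    exact ENNReal.ofReal_le_ofReal h2
  refine (add_le_add e1 e2).trans (le_of_eq ?_)
  rw [← ENNReal.ofReal_add (by positivity) (by positivity)]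
  congr 1
  ring

/-- chaining -/
theorem chain {g : ℝ → ℝ} (hg : Continuous g) {η : ℝ} (hη : 0 < η)
    (h : ∀ n : ℕ, ∀ i < 2 ^ n, |g ((i + 1 : ℕ) / 2 ^ n) - g ((i : ℕ) / 2 ^ n)|
      ≤ η / 8 * (7 / 8) ^ n) {y : ℝ} (hy0 : 0 ≤ y) (hy1 : y ≤ 1) : |g y - g 0| ≤ η := by
  rcases hy1.lt_or_eq with hy | rfl
  swap
  · have := h 0 0 (by norm_num)
    simp only [Nat.cast_zero, pow_zero, zero_add, Nat.cast_one, div_one, mul_one] at this
    linarith
  -- dyadic approximations
  set m : ℕ → ℕ := fun n => ⌊y * 2 ^ n⌋₊ with hm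
  have hm1 : ∀ n, (m n : ℝ) ≤ y * 2 ^ n := fun n => Nat.floor_le (by positivity)
  have hm2 : ∀ n, y * 2 ^ n < m n + 1 := fun n => Nat.lt_floor_add_one _
  have hstep : ∀ n, m (n + 1) = 2 * m n ∨ m (n + 1) = 2 * m n + 1 := by
    intro n
    have h1 := hm1 n
    have h2 := hm2 n
    have h3 := hm1 (n + 1)
    have h4 := hm2 (n + 1)
    rw [pow_succ] at h3 h4
    have h5 : (m (n + 1) : ℝ) < 2 * m n + 2 := by nlinarith
    have h6 : (2 * m n : ℝ) < m (n + 1) + 1 := by nlinarith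
    have h5' : m (n + 1) < 2 * m n + 2 := by exact_mod_cast h5
    have h6' : 2 * m n < m (n + 1) + 1 := by exact_mod_cast h6
    omega
  have hlt : ∀ n, m n < 2 ^ n := by
    intro n
    have h1 := hm1 n
    have h2 : (m n : ℝ) < 2 ^ n := by
      have : y * 2 ^ n < 1 * 2 ^ n := by gcongr
      linarith
    exact_mod_cast h2
  have hind : ∀ n, |g (m n / 2 ^ n) - g 0| ≤ η * (1 - (7 / 8) ^ n) := by
    intro n
    induction n with
    | zero =>
      have h0 : m 0 = 0 := by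
        have := hlt 0
        simp only [pow_zero] at this
        omega
      rw [h0]
      simp
    | succ n ih =>
      have h1 : |g (m (n + 1) / 2 ^ (n + 1)) - g (m n / 2 ^ n)| ≤ η / 8 * (7 / 8) ^ (n + 1) := by
        rcases hstep n with h2 | h2
        · have h3 : (m (n + 1) : ℝ) / 2 ^ (n + 1) = m n / 2 ^ n := by
            rw [h2]; push_cast; rw [pow_succ]; field_simp
          rw [h3, sub_self, abs_zero]
          positivity
        · have h3 := h (n + 1) (2 * m n) (by have := hlt (n + 1); omega)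
          have h4 : ((2 * m n : ℕ) : ℝ) / 2 ^ (n + 1) = m n / 2 ^ n := by
            push_cast; rw [pow_succ]; field_simp
          rw [← h2, h4] at h3
          exact h3
      have h5 : g (m (n + 1) / 2 ^ (n + 1)) - g 0 = (g (m (n + 1) / 2 ^ (n + 1)) - g (m n / 2 ^ n))
          + (g (m n / 2 ^ n) - g 0) := by ring
      rw [h5]
      refine (abs_add_le _ _).trans ((add_le_add h1 ih).trans ?_)
      have h6 : (0 : ℝ) < (7 / 8) ^ n := by positivity
      rw [pow_succ]
      nlinarith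
  have hlim : Tendsto (fun n => (m n : ℝ) / 2 ^ n) atTop (𝓝 y) := by
    have h1 : Tendsto (fun n : ℕ => y - (1 / 2 : ℝ) ^ n) atTop (𝓝 (y - 0)) :=
      tendsto_const_nhds.sub (tendsto_pow_atTop_nhds_zero_of_lt_one (by norm_num) (by norm_num))
    rw [sub_zero] at h1
    refine tendsto_of_tendsto_of_tendsto_of_le_of_le h1 tendsto_const_nhds (fun n => ?_)
      (fun n => ?_)
    · have h2 := hm2 n
      simp only
      rw [le_div_iff₀ (by positivity), sub_mul, ← mul_pow]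
      norm_num
      linarith
    · simp only
      rw [div_le_iff₀ (by positivity)]
      exact hm1 n
  have hlim2 : Tendsto (fun n => |g (m n / 2 ^ n) - g 0|) atTop (𝓝 |g y - g 0|) :=
    (((hg.tendsto y).comp hlim).sub_const _).abs
  refine le_of_tendsto hlim2 (Eventually.of_forall fun n => (hind n).trans ?_)
  have h6 : (0 : ℝ) < (7 / 8) ^ n := by positivity
  nlinarith

/-- oscillation bound -/
theorem osc_bound {B : ℝ≥0 → Ω → ℝ} (hB : IsBrownianReal B P) (a : ℝ≥0) {r η : ℝ} (hr : 0 < r)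
    (hη : 0 < η) :
    P {ω | ∃ s : ℝ≥0, a ≤ s ∧ (s : ℝ) ≤ a + r ∧ η < |B s ω - B a ω|} ≤
      ENNReal.ofReal (458752 * r ^ 2 / η ^ 4) := by
  set pt : ℝ → ℝ≥0 := fun y => a + (y * r).toNNReal with hpt
  have hptc : Continuous pt := by fun_prop
  have hpt0 : pt 0 = a := by simp [hpt]
  set E : ℕ → ℕ → Set Ω := fun n i =>
    {ω | η / 8 * (7 / 8) ^ n < |B (pt ((i + 1 : ℕ) / 2 ^ n)) ω - B (pt ((i : ℕ) / 2 ^ n)) ω|} with hE
  have hEle : ∀ n i, P (E n i) ≤ ENNReal.ofReal (16 * (r / 2 ^ n) ^ 2 / (η / 8 * (7 / 8) ^ n) ^ 4) := by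
    intro n i
    have h1 := hB.hasLaw_sub (pt ((i + 1 : ℕ) / 2 ^ n)) (pt ((i : ℕ) / 2 ^ n))
    have h2 : nndist (pt ((i + 1 : ℕ) / 2 ^ n)).1 (pt ((i : ℕ) / 2 ^ n)).1 =
        (⟨r / 2 ^ n, by positivity⟩ : ℝ≥0) := by
      apply NNReal.eq
      rw [coe_nndist, Real.dist_eq]
      have e1 : (pt ((i + 1 : ℕ) / 2 ^ n)).1 = a + ((i + 1 : ℕ) / 2 ^ n) * r := by
        simp only [hpt, NNReal.val_eq_coe, NNReal.coe_add]
        rw [Real.coe_toNNReal _ (by positivity)]
      have e2 : (pt ((i : ℕ) / 2 ^ n)).1 = a + ((i : ℕ) / 2 ^ n) * r := by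
        simp only [hpt, NNReal.val_eq_coe, NNReal.coe_add]
        rw [Real.coe_toNNReal _ (by positivity)]
      rw [e1, e2]
      have e3 : (a : ℝ) + ((i + 1 : ℕ) / 2 ^ n) * r - (a + ((i : ℕ) / 2 ^ n) * r) = r / 2 ^ n := by
        push_cast; ring
      rw [e3, abs_of_pos (by positivity)]
      rfl
    rw [h2] at h1
    have h3 : (0 : ℝ≥0) < ⟨r / 2 ^ n, by positivity⟩ := by
      rw [← NNReal.coe_pos]
      exact (by positivity : (0 : ℝ) < r / 2 ^ n)
    have h4 := gauss_tail h1 h3 (x := η / 8 * (7 / 8) ^ n) (by positivity)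
    exact h4
  have hsub : {ω | ∃ s : ℝ≥0, a ≤ s ∧ (s : ℝ) ≤ a + r ∧ η < |B s ω - B a ω|} ⊆
      {ω | ¬ Continuous (B · ω)} ∪ ⋃ n, ⋃ i ∈ Finset.range (2 ^ n), E n i := by
    intro ω hω
    by_contra hcon
    rw [Set.mem_union, not_or] at hcon
    obtain ⟨h1, h2⟩ := hcon
    simp only [Set.mem_ofPred_eq, not_not] at h1
    simp only [Set.mem_iUnion, not_exists, hE, Set.mem_ofPred_eq, not_lt, Finset.mem_range] at h2
    obtain ⟨s, has, hsr, hs⟩ := hω
    have h3 := chain (g := fun y => B (pt y) ω) (h1.comp hptc) hη h2 (y := ((s : ℝ) - a) / r)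
      (div_nonneg (sub_nonneg.2 (by exact_mod_cast has)) hr.le)
      ((div_le_one hr).2 (by linarith))
    have h4 : pt (((s : ℝ) - a) / r) = s := by
      simp only [hpt]
      rw [div_mul_cancel₀ _ hr.ne', ← NNReal.coe_sub has, Real.toNNReal_coe,
        add_tsub_cancel_of_le has]
    simp only [h4, hpt0] at h3
    exact absurd h3 (not_le.2 hs)
  refine (measure_mono hsub).trans ((measure_union_le _ _).trans ?_)
  have h0 : P {ω | ¬ Continuous (B · ω)} = 0 := hB.cont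
  rw [h0, zero_add]
  refine (measure_iUnion_le _).trans ?_
  have hn : ∀ n, P (⋃ i ∈ Finset.range (2 ^ n), E n i) ≤
      ENNReal.ofReal (65536 * r ^ 2 / η ^ 4 * (4096 / 4802) ^ n) := by
    intro n
    refine (measure_biUnion_finset_le _ _).trans ?_
    refine (Finset.sum_le_sum fun i _ => hEle n i).trans ?_
    rw [Finset.sum_const, Finset.card_range, nsmul_eq_mul]
    rw [show ((2 ^ n : ℕ) : ℝ≥0∞) = ENNReal.ofReal (2 ^ n) by
      rw [ENNReal.ofReal_pow (by norm_num)]; simp]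
    rw [← ENNReal.ofReal_mul (by positivity)]
    refine ENNReal.ofReal_le_ofReal (le_of_eq ?_)
    have e1 : (4096 / 4802 : ℝ) ^ n = 2 ^ n * (1 / 2 ^ n) ^ 2 / ((7 / 8) ^ n) ^ 4 := by
      have h1 : (4096 / 4802 : ℝ) = 2 * (1 / 2) ^ 2 / (7 / 8) ^ 4 := by norm_num
      rw [h1, div_pow, mul_pow]
      congr 1
      · congr 1
        rw [← pow_mul, ← one_div_pow, ← pow_mul, mul_comm]
      · rw [← pow_mul, ← pow_mul, mul_comm]
    rw [e1]
    field_simp
    ring
  refine (ENNReal.tsum_le_tsum hn).trans ?_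
  rw [← ENNReal.ofReal_tsum_of_nonneg (fun n => by positivity)
    ((summable_geometric_of_lt_one (by norm_num) (by norm_num)).mul_left _)]
  refine ENNReal.ofReal_le_ofReal ?_
  rw [tsum_mul_left, tsum_geometric_of_lt_one (by norm_num) (by norm_num)]
  have h5 : (0 : ℝ) ≤ r ^ 2 / η ^ 4 := by positivity
  calc 65536 * r ^ 2 / η ^ 4 * (1 - 4096 / 4802 : ℝ)⁻¹
      = (65536 * (1 - 4096 / 4802 : ℝ)⁻¹) * (r ^ 2 / η ^ 4) := by ring
    _ ≤ 458752 * (r ^ 2 / η ^ 4) := by
        refine mul_le_mul_of_nonneg_right ?_ h5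
        norm_num
    _ = 458752 * r ^ 2 / η ^ 4 := by ring

end Pool.Agent.Helper1.RJ
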